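import Pool.Agent.V11275.JacA
import Pool.Agent.V11275.JacB

set_option autoImplicit false

open UpperHalfPlane hiding I
open Complex Filter Topology EisensteinSeries ModularForm MatrixGroups
open scoped Manifold MatrixGroups ModularForm

namespace Pool.Agent.Results.MP_c5c797_nt.NoWeightZero

open Pool.Agent.V11275.Jac

/-! ### definitions -/

/-- `L` is a (full) lattice of the euclidean space `ℝⁿ` with `(x, y) = ∑ x_i y_i`. -/
def IsLattice {n : ℕ} (L : Submodule ℤ (Fin n → ℝ)) : Prop :=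
  DiscreteTopology L ∧ Submodule.span ℝ (L : Set (Fin n → ℝ)) = ⊤

/-- `L` is even: `(x, x)` is an even integer for all `x` in `L`. -/
def IsEven {n : ℕ} (L : Submodule ℤ (Fin n → ℝ)) : Prop :=
  ∀ x ∈ L, ∃ m : ℤ, x ⬝ᵥ x = 2 * (m : ℝ)

/-- `L` is not the orthogonal direct sum of two nonzero sublattices. -/
def IsIrreducible {n : ℕ} (L : Submodule ℤ (Fin n → ℝ)) : Prop :=
  ∀ A B : Submodule ℤ (Fin n → ℝ), A ⊔ B = L → (∀ a ∈ A, ∀ b ∈ B, a ⬝ᵥ b = 0) → A = ⊥ ∨ B = ⊥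

/-- The dual lattice of `L`. -/
def dual {n : ℕ} (L : Submodule ℤ (Fin n → ℝ)) : Set (Fin n → ℝ) :=
  {y | ∀ x ∈ L, ∃ m : ℤ, x ⬝ᵥ y = (m : ℝ)}

/-- The inclusion of `ℝⁿ` in its complexification `ℂⁿ`. -/
def cx {n : ℕ} (x : Fin n → ℝ) : Fin n → ℂ := fun i => (x i : ℂ)

/-- `φ` is a weak Jacobi form of weight `k` and index one for the lattice `L`. -/
structure IsWeakJacobi {n : ℕ} (L : Submodule ℤ (Fin n → ℝ)) (k : ℤ) (φ : ℍ → (Fin n → ℂ) → ℂ) :
    Prop where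
  /-- `φ` is holomorphic on `ℍ × ℂⁿ`. -/
  holo : DifferentiableOn ℂ (fun p : ℂ × (Fin n → ℂ) => φ (ofComplex p.1) p.2) {p | 0 < p.1.im}
  /-- transformation law under `SL(2, ℤ)` -/
  modular : ∀ (γ : SL(2, ℤ)) (τ : ℍ) (z : Fin n → ℂ),
    φ (γ • τ) (((γ 1 0 : ℂ) * τ + γ 1 1)⁻¹ • z) =
      ((γ 1 0 : ℂ) * τ + γ 1 1) ^ k *
        cexp (Real.pi * I * γ 1 0 * (z ⬝ᵥ z) / ((γ 1 0 : ℂ) * τ + γ 1 1)) * φ τ z
  /-- transformation law under translations by `L τ + L` -/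
  elliptic : ∀ x ∈ L, ∀ y ∈ L, ∀ (τ : ℍ) (z : Fin n → ℂ),
    φ τ (z + (τ : ℂ) • cx x + cx y) =
      cexp (-(Real.pi * I * ((x ⬝ᵥ x : ℝ) : ℂ) * τ) - 2 * Real.pi * I * (cx x ⬝ᵥ z)) * φ τ z
  /-- Fourier expansion over `n ≥ 0` and `ℓ` in the dual lattice -/
  fourier : ∃ f : ℕ → dual L → ℂ, ∀ (τ : ℍ) (z : Fin n → ℂ),
    HasSum (fun p : ℕ × dual L => f p.1 p.2 *
      cexp (2 * Real.pi * I * (p.1 * τ + cx (p.2 : Fin n → ℝ) ⬝ᵥ z))) (φ τ z)

/-- `c : ℍ → ℂ` is a modular form of weight `m` for `SL(2, ℤ)`. -/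
def IsModular (m : ℤ) (c : ℍ → ℂ) : Prop := ∃ g : ModularForm 𝒮ℒ m, (g : ℍ → ℂ) = c

/-- `b` is a homogeneous basis, with weights `w`, of the graded module of weak Jacobi forms of
index one for `L` over the graded ring of modular forms: every weak Jacobi form of weight `k` is
in exactly one way a finite sum `∑ c_i b_i` with `c_i` a modular form of weight `k - w_i`. -/
structure IsHomogeneousBasis {n : ℕ} (L : Submodule ℤ (Fin n → ℝ)) {ι : Type} (w : ι → ℤ)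
    (b : ι → ℍ → (Fin n → ℂ) → ℂ) : Prop where
  mem : ∀ i, IsWeakJacobi L (w i) (b i)
  rep : ∀ (k : ℤ) (φ : ℍ → (Fin n → ℂ) → ℂ), IsWeakJacobi L k φ →
    ∃! c : ι → ℍ → ℂ, (∀ i, IsModular (k - w i) (c i)) ∧ {i | c i ≠ 0}.Finite ∧
      ∀ τ z, φ τ z = ∑ᶠ i, c i τ * b i τ z

/-! ### Fourier coefficients -/

/-- the functional `(u, v) ↦ a u + (w, v)` -/
def fl {n : ℕ} (a : ℝ) (w : Fin n → ℝ) : (ℝ × (Fin n → ℝ)) →ₗ[ℝ] ℝ where
  toFun p := a * p.1 + w ⬝ᵥ p.2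
  map_add' p q := by simp [dotProduct_add]; ring
  map_smul' r p := by simp [dotProduct_smul]; ring

theorem fl_apply {n : ℕ} (a : ℝ) (w : Fin n → ℝ) (p : ℝ × (Fin n → ℝ)) : fl a w p = a * p.1 + w ⬝ᵥ p.2 := rfl

theorem fl_inj {n : ℕ} {a a' : ℝ} {w w' : Fin n → ℝ} (h : fl a w = fl a' w') : a = a' ∧ w = w' := by
  constructor
  · have := LinearMap.congr_fun h (1, 0)
    simpa [fl_apply] using this
  · funext i
    have := LinearMap.congr_fun h (0, Pi.single i 1)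
    simpa [fl_apply] using this

variable {n : ℕ}

theorem cx_dot (x y : Fin n → ℝ) : cx x ⬝ᵥ cx y = ((x ⬝ᵥ y : ℝ) : ℂ) := by
  simp [cx, dotProduct]

theorem norm_exp_neg (a b : ℝ) : ‖cexp (2 * Real.pi * I * (a : ℂ) - 2 * Real.pi * (b : ℂ))‖ = Real.exp (-(2 * Real.pi * b)) := by
  rw [Complex.norm_exp]
  congr 1
  simp

theorem shift_aux {L : Submodule ℤ (Fin n → ℝ)} {k : ℤ} {φ : ℍ → (Fin n → ℂ) → ℂ}
    (h : IsWeakJacobi L k φ) (f : ℕ → dual L → ℂ)
    (hf : ∀ (τ : ℍ) (z : Fin n → ℂ), HasSum (fun p : ℕ × dual L => f p.1 p.2 *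
      cexp (2 * Real.pi * I * (p.1 * τ + cx (p.2 : Fin n → ℝ) ⬝ᵥ z))) (φ τ z))
    (x : Fin n → ℝ) (hx : x ∈ L) (θ : (ℝ × (Fin n → ℝ)) →ₗ[ℝ] ℝ) [DecidableEq ((ℝ × (Fin n → ℝ)) →ₗ[ℝ] ℝ)] :
    ∑' i : (ℕ × dual L) ⊕ (ℕ × dual L),
      (if Sum.elim (fun p : ℕ × dual L => fl (p.1 + (p.2 : Fin n → ℝ) ⬝ᵥ x) p.2)
        (fun p : ℕ × dual L => fl (p.1 - (x ⬝ᵥ x) / 2) ((p.2 : Fin n → ℝ) - x)) i = θ
      then Sum.elim (fun p : ℕ × dual L => f p.1 p.2 * cexp (-(2 * Real.pi * ((p.1 + (p.2 : Fin n → ℝ) ⬝ᵥ x : ℝ) : ℂ))))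
        (fun p : ℕ × dual L => -(f p.1 p.2 * cexp (-(2 * Real.pi * ((p.1 - (x ⬝ᵥ x) / 2 : ℝ) : ℂ))))) i else 0) = 0 := by
  apply char_unique
  · -- summability
    have h1 : ∀ (a : ℝ) (v : Fin n → ℝ), Summable (fun p : ℕ × dual L => ‖f p.1 p.2 *
      cexp (2 * Real.pi * I * (p.1 * ((⟨I, by simp⟩ : ℍ) : ℂ) + cx (p.2 : Fin n → ℝ) ⬝ᵥ (I • cx v)))‖) :=
      fun a v => (hf ⟨I, by simp⟩ (I • cx v)).summable.norm
    have key : ∀ (p : ℕ × dual L) (v : Fin n → ℝ), ‖f p.1 p.2 *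
      cexp (2 * Real.pi * I * (p.1 * ((⟨I, by simp⟩ : ℍ) : ℂ) + cx (p.2 : Fin n → ℝ) ⬝ᵥ (I • cx v)))‖ =
      ‖f p.1 p.2‖ * Real.exp (-(2 * Real.pi * (p.1 + (p.2 : Fin n → ℝ) ⬝ᵥ v))) := by
      intro p v
      rw [norm_mul, Complex.norm_exp]
      congr 2
      have : (2 * Real.pi * I * (p.1 * ((⟨I, by simp⟩ : ℍ) : ℂ) + cx (p.2 : Fin n → ℝ) ⬝ᵥ (I • cx v)) : ℂ) =
        ((-(2 * Real.pi * (p.1 + (p.2 : Fin n → ℝ) ⬝ᵥ v)) : ℝ) : ℂ) := by
        change (2 * Real.pi * I * (p.1 * I + cx (p.2 : Fin n → ℝ) ⬝ᵥ (I • cx v)) : ℂ) = _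
        rw [dotProduct_smul, cx_dot]
        simp only [smul_eq_mul]
        push_cast
        linear_combination (2 * Real.pi * (p.1 + (((p.2 : Fin n → ℝ) ⬝ᵥ v : ℝ) : ℂ))) * I_mul_I
      rw [this, ofReal_re]
    have hA : Summable (fun p : ℕ × dual L => ‖f p.1 p.2‖ * Real.exp (-(2 * Real.pi * (p.1 + (p.2 : Fin n → ℝ) ⬝ᵥ x)))) := by
      refine (h1 0 x).congr (fun p => key p x)
    have hB : Summable (fun p : ℕ × dual L => ‖f p.1 p.2‖ * Real.exp (-(2 * Real.pi * (p.1 + (p.2 : Fin n → ℝ) ⬝ᵥ (0 : Fin n → ℝ))))) := by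
      refine (h1 0 0).congr (fun p => key p 0)
    refine Summable.sum _ ?_ ?_
    · refine hA.congr (fun p => ?_)
      simp only [Function.comp_apply, Sum.elim_inl, norm_mul]
      rw [← ofReal_ofNat, ← ofReal_mul, ← ofReal_mul, ← ofReal_neg, Complex.norm_exp, ofReal_re]
    · refine (hB.mul_right (Real.exp (Real.pi * (x ⬝ᵥ x)))).congr (fun p => ?_)
      simp only [Function.comp_apply, Sum.elim_inr, norm_neg, norm_mul]
      rw [← ofReal_ofNat, ← ofReal_mul, ← ofReal_mul, ← ofReal_neg, Complex.norm_exp, ofReal_re, mul_assoc, ← Real.exp_add]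
      congr 2
      simp only [dotProduct_zero]
      ring
  · intro p
    obtain ⟨u, v⟩ := p
    set τ : ℍ := ⟨(u : ℂ) + I, by simp⟩ with hτ
    have hτc : (τ : ℂ) = u + I := rfl
    have h1 := hf τ (cx v + (τ : ℂ) • cx x + cx 0)
    rw [h.elliptic x hx 0 L.zero_mem τ (cx v)] at h1
    have h2 := (hf τ (cx v)).mul_left (cexp (-(Real.pi * I * ((x ⬝ᵥ x : ℝ) : ℂ) * τ) - 2 * Real.pi * I * (cx x ⬝ᵥ cx v)))
    have h3 := h2.neg
    have hcx0 : cx (0 : Fin n → ℝ) = 0 := by funext i; simp [cx]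
    have h4 := HasSum.sum (f := fun i : (ℕ × dual L) ⊕ (ℕ × dual L) =>
      Sum.elim (fun p : ℕ × dual L => f p.1 p.2 * cexp (-(2 * Real.pi * ((p.1 + (p.2 : Fin n → ℝ) ⬝ᵥ x : ℝ) : ℂ))))
        (fun p : ℕ × dual L => -(f p.1 p.2 * cexp (-(2 * Real.pi * ((p.1 - (x ⬝ᵥ x) / 2 : ℝ) : ℂ))))) i *
      cexp (2 * Real.pi * I * ((Sum.elim (fun p : ℕ × dual L => fl (p.1 + (p.2 : Fin n → ℝ) ⬝ᵥ x) p.2)
        (fun p : ℕ × dual L => fl (p.1 - (x ⬝ᵥ x) / 2) ((p.2 : Fin n → ℝ) - x)) i (u, v) : ℝ) : ℂ)))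
      (a := cexp (-(Real.pi * I * ((x ⬝ᵥ x : ℝ) : ℂ) * τ) - 2 * Real.pi * I * (cx x ⬝ᵥ cx v)) * φ τ (cx v))
      (b := -(cexp (-(Real.pi * I * ((x ⬝ᵥ x : ℝ) : ℂ) * τ) - 2 * Real.pi * I * (cx x ⬝ᵥ cx v)) * φ τ (cx v))) ?_ ?_
    · rw [add_neg_cancel] at h4
      exact h4
    · refine h1.congr_fun ?_ |> id
      intro p
      simp only [Function.comp_apply, Sum.elim_inl, fl_apply]
      rw [mul_assoc, ← Complex.exp_add, hcx0, add_zero, dotProduct_add, dotProduct_smul, cx_dot, cx_dot, hτc]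
      congr 2
      push_cast
      simp only [smul_eq_mul]
      linear_combination (-(2 * Real.pi * (p.1 + (((p.2 : Fin n → ℝ) ⬝ᵥ x : ℝ) : ℂ)))) * I_mul_I
    · refine h3.congr_fun ?_ |> id
      intro p
      simp only [Function.comp_apply, Sum.elim_inr, fl_apply, sub_dotProduct]
      rw [neg_mul, mul_assoc, ← Complex.exp_add, cx_dot, cx_dot, hτc, mul_left_comm, ← Complex.exp_add]
      congr 3
      push_cast
      linear_combination (-(2 * Real.pi * (p.1 - ((x ⬝ᵥ x : ℝ) : ℂ) / 2))) * I_mul_I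

theorem shift_eq {L : Submodule ℤ (Fin n → ℝ)} {k : ℤ} {φ : ℍ → (Fin n → ℂ) → ℂ}
    (h : IsWeakJacobi L k φ) (f : ℕ → dual L → ℂ)
    (hf : ∀ (τ : ℍ) (z : Fin n → ℂ), HasSum (fun p : ℕ × dual L => f p.1 p.2 *
      cexp (2 * Real.pi * I * (p.1 * τ + cx (p.2 : Fin n → ℝ) ⬝ᵥ z))) (φ τ z))
    (x : Fin n → ℝ) (hx : x ∈ L) (N m : ℕ) (ℓ ℓ' : dual L) (hℓ : (ℓ' : Fin n → ℝ) = ℓ + x)
    (hm : (m : ℝ) = N + (ℓ : Fin n → ℝ) ⬝ᵥ x + (x ⬝ᵥ x) / 2) : f N ℓ = f m ℓ' := by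
  classical
  have h1 := shift_aux h f hf x hx (fl (N + (ℓ : Fin n → ℝ) ⬝ᵥ x) ℓ)
  rw [tsum_eq_sum (s := {Sum.inl (N, ℓ), Sum.inr (m, ℓ')})] at h1
  · rw [Finset.sum_pair (by simp)] at h1
    have h2 : fl ((m : ℝ) - (x ⬝ᵥ x) / 2) ((ℓ' : Fin n → ℝ) - x) = fl (N + (ℓ : Fin n → ℝ) ⬝ᵥ x) ℓ := by
      rw [hℓ, hm]
      congr 1 <;> ring
    rw [if_pos (by simp only [Sum.elim_inl]), if_pos (by simpa only [Sum.elim_inr] using h2)] at h1
    simp only [Sum.elim_inl, Sum.elim_inr] at h1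
    have h3 : ((m : ℝ) - (x ⬝ᵥ x) / 2) = N + (ℓ : Fin n → ℝ) ⬝ᵥ x := by rw [hm]; ring
    rw [h3] at h1
    have h4 : cexp (-(2 * Real.pi * ((N + (ℓ : Fin n → ℝ) ⬝ᵥ x : ℝ) : ℂ))) ≠ 0 := Complex.exp_ne_zero _
    have h5 : (f N ℓ - f m ℓ') * cexp (-(2 * Real.pi * ((N + (ℓ : Fin n → ℝ) ⬝ᵥ x : ℝ) : ℂ))) = 0 := by
      linear_combination h1
    exact sub_eq_zero.mp ((mul_eq_zero.mp h5).resolve_right h4)
  · intro i hi
    rw [Finset.mem_insert, Finset.mem_singleton, not_or] at hi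
    rcases i with ⟨a, b⟩ | ⟨a, b⟩
    · rw [if_neg]
      intro hcon
      simp only [Sum.elim_inl] at hcon
      obtain ⟨h2, h3⟩ := fl_inj hcon
      apply hi.1
      have hb : b = ℓ := Subtype.ext h3
      subst hb
      have ha : (a : ℝ) = N := by linarith
      rw [Nat.cast_injective ha]
    · rw [if_neg]
      intro hcon
      simp only [Sum.elim_inr] at hcon
      obtain ⟨h2, h3⟩ := fl_inj hcon
      apply hi.2
      have hb : b = ℓ' := Subtype.ext (by rw [hℓ, ← h3]; simp)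
      subst hb
      have ha : (a : ℝ) = m := by linarith
      rw [Nat.cast_injective ha]

theorem shift_zero {L : Submodule ℤ (Fin n → ℝ)} {k : ℤ} {φ : ℍ → (Fin n → ℂ) → ℂ}
    (h : IsWeakJacobi L k φ) (f : ℕ → dual L → ℂ)
    (hf : ∀ (τ : ℍ) (z : Fin n → ℂ), HasSum (fun p : ℕ × dual L => f p.1 p.2 *
      cexp (2 * Real.pi * I * (p.1 * τ + cx (p.2 : Fin n → ℝ) ⬝ᵥ z))) (φ τ z))
    (x : Fin n → ℝ) (hx : x ∈ L) (N : ℕ) (ℓ : dual L)
    (hm : ∀ m : ℕ, (m : ℝ) ≠ N + (ℓ : Fin n → ℝ) ⬝ᵥ x + (x ⬝ᵥ x) / 2) : f N ℓ = 0 := by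
  classical
  have h1 := shift_aux h f hf x hx (fl (N + (ℓ : Fin n → ℝ) ⬝ᵥ x) ℓ)
  rw [tsum_eq_single (Sum.inl (N, ℓ))] at h1
  · rw [if_pos (by simp only [Sum.elim_inl])] at h1
    simp only [Sum.elim_inl] at h1
    have h4 : cexp (-(2 * Real.pi * ((N + (ℓ : Fin n → ℝ) ⬝ᵥ x : ℝ) : ℂ))) ≠ 0 := Complex.exp_ne_zero _
    exact (mul_eq_zero.mp h1).resolve_right h4
  · intro i hi
    rcases i with ⟨a, b⟩ | ⟨a, b⟩
    · rw [if_neg]
      intro hcon
      simp only [Sum.elim_inl] at hcon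
      obtain ⟨h2, h3⟩ := fl_inj hcon
      apply hi
      have hb : b = ℓ := Subtype.ext h3
      subst hb
      have ha : (a : ℝ) = N := by linarith
      rw [Nat.cast_injective ha]
    · rw [if_neg]
      intro hcon
      simp only [Sum.elim_inr] at hcon
      obtain ⟨h2, h3⟩ := fl_inj hcon
      exact hm a (by linarith)

/-! ### the modular relations in weight zero -/

theorem tendsto_exp_sq (a : ℂ) : Tendsto (fun s : ℂ => (cexp (a * s ^ 2) - 1) / s ^ 2) (𝓝[≠] 0) (𝓝 a) := by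
  rw [tendsto_iff_norm_sub_tendsto_zero]
  have h1 : Tendsto (fun s : ℂ => ‖a‖ ^ 2 * ‖s‖ ^ 2 * Real.exp ‖a * s ^ 2‖) (𝓝[≠] 0) (𝓝 0) := by
    have h2 : Continuous (fun s : ℂ => ‖a‖ ^ 2 * ‖s‖ ^ 2 * Real.exp ‖a * s ^ 2‖) := by fun_prop
    have h3 := h2.tendsto 0
    simp only [norm_zero, mul_zero, zero_mul, ne_eq, OfNat.ofNat_ne_zero, not_false_eq_true, zero_pow] at h3
    exact h3.mono_left nhdsWithin_le_nhds
  refine squeeze_zero_norm' ?_ h1
  filter_upwards [self_mem_nhdsWithin] with s hs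
  have hs0 : s ≠ 0 := hs
  rw [norm_norm]
  have h4 : (cexp (a * s ^ 2) - 1) / s ^ 2 - a = (cexp (a * s ^ 2) - (1 + a * s ^ 2)) / s ^ 2 := by
    field_simp
    ring
  rw [h4, norm_div, norm_pow]
  have h6 : 0 < ‖s‖ := norm_pos_iff.mpr hs0
  rw [div_le_iff₀ (by positivity)]
  have h5 := norm_exp_sub_sum_le_norm_mul_exp (a * s ^ 2) 2
  simp only [Finset.sum_range_succ, Finset.sum_range_zero, Nat.factorial, pow_zero, pow_one, zero_add] at h5
  have h7 : cexp (a * s ^ 2) - (1 + a * s ^ 2) = cexp (a * s ^ 2) - (1 / ((1 : ℕ) : ℂ) + a * s ^ 2 / ((1 * 1 : ℕ) : ℂ)) := by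
    push_cast; ring
  rw [h7]
  refine h5.trans (le_of_eq ?_)
  rw [norm_mul, norm_pow]
  ring

theorem smul_coe (γ : SL(2, ℤ)) (τ : ℍ) : denom γ τ = (γ 1 0 : ℂ) * τ + γ 1 1 := by
  simp [denom]

theorem E2_transf (γ : SL(2, ℤ)) (τ : ℍ) : E2 (γ • τ) =
    ((γ 1 0 : ℂ) * τ + γ 1 1) ^ 2 * (E2 τ + 12 * ((γ 1 0 : ℂ) / ((γ 1 0 : ℂ) * τ + γ 1 1)) / (2 * Real.pi * I)) := by
  have h1 := congrFun (E2_slash_action γ) τ
  rw [ModularForm.SL_slash_apply] at h1
  simp only [Pi.sub_apply, Pi.smul_apply, smul_eq_mul, D2, riemannZeta_two, smul_coe] at h1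
  have hd : ((γ 1 0 : ℂ) * τ + γ 1 1) ≠ 0 := by
    rw [← smul_coe]; exact denom_ne_zero _ _
  have hpi : (Real.pi : ℂ) ≠ 0 := by exact_mod_cast Real.pi_ne_zero
  rw [zpow_neg] at h1
  have h2 : (((γ 1 0 : ℂ) * τ + γ 1 1) ^ (2 : ℤ)) = ((γ 1 0 : ℂ) * τ + γ 1 1) ^ 2 := by norm_cast
  rw [h2] at h1
  have h3 : E2 (γ • τ) = ((γ 1 0 : ℂ) * τ + γ 1 1) ^ 2 * (E2 τ - 1 / (2 * ((Real.pi : ℂ) ^ 2 / 6)) * (2 * Real.pi * I * γ 1 0 / ((γ 1 0 : ℂ) * τ + γ 1 1))) := by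
    rw [← h1]
    field_simp
  rw [h3]
  have hI2 : (1 : ℂ) / (2 * Real.pi * I) = -I / (2 * Real.pi) := by
    have h5 : (2 * Real.pi * I : ℂ) ≠ 0 := Complex.two_pi_I_ne_zero
    have hI : I ≠ 0 := I_ne_zero
    rw [div_eq_div_iff h5 (by simpa using hpi)]
    linear_combination (2 * Real.pi) * I_mul_I
  have h6 : 12 * ((γ 1 0 : ℂ) / ((γ 1 0 : ℂ) * τ + γ 1 1)) / (2 * Real.pi * I) =
    12 * ((γ 1 0 : ℂ) / ((γ 1 0 : ℂ) * τ + γ 1 1)) * (-I / (2 * Real.pi)) := by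
    rw [← hI2]; ring
  rw [h6]
  field_simp
  ring

theorem fiber_hasSum {D : Type*} (f : ℕ → D → ℂ) (g : D → ℂ) (τ : ℍ) (S : ℂ)
    (h : HasSum (fun p : ℕ × D => f p.1 p.2 * cexp (2 * Real.pi * I * (p.1 * (τ : ℂ))) * g p.2) S) :
    (∀ m, Summable (fun ℓ => f m ℓ * g ℓ)) ∧
    HasSum (fun m : ℕ => (∑' ℓ, f m ℓ * g ℓ) * cexp (2 * Real.pi * I * (m * (τ : ℂ)))) S := by
  have h1 : ∀ m, Summable (fun ℓ => f m ℓ * g ℓ) := by
    intro m
    have h2 := h.summable.prod_factor m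
    have h3 := h2.mul_right (cexp (2 * Real.pi * I * (m * (τ : ℂ))))⁻¹
    refine h3.congr (fun ℓ => ?_)
    have h4 : cexp (2 * Real.pi * I * (m * (τ : ℂ))) ≠ 0 := Complex.exp_ne_zero _
    field_simp
  refine ⟨h1, h.prod_fiberwise (fun m => ?_)⟩
  have h2 := (h1 m).hasSum.mul_right (cexp (2 * Real.pi * I * (m * (τ : ℂ))))
  refine h2.congr_fun ?_ |> id
  intro ℓ
  ring

theorem rel {L : Submodule ℤ (Fin n → ℝ)} {φ : ℍ → (Fin n → ℂ) → ℂ}
    (h : IsWeakJacobi L 0 φ) (f : ℕ → dual L → ℂ)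
    (hf : ∀ (τ : ℍ) (z : Fin n → ℂ), HasSum (fun p : ℕ × dual L => f p.1 p.2 *
      cexp (2 * Real.pi * I * (p.1 * τ + cx (p.2 : Fin n → ℝ) ⬝ᵥ z))) (φ τ z))
    (N : ℕ) (hN : ∀ m < N, ∀ ℓ, f m ℓ = 0) (i : Fin n) :
    HasSum (fun ℓ : dual L => f N ℓ * (((ℓ : Fin n → ℝ) i : ℂ) ^ 2 - 1 / 12)) 0 := by
  set c : ℍ → ℕ × dual L → ℂ := fun τ p => f p.1 p.2 * cexp (2 * Real.pi * I * (p.1 * (τ : ℂ))) with hc
  set xi : ℕ × dual L → ℝ := fun p => (p.2 : Fin n → ℝ) i with hxi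
  set F : ℍ → ℂ → ℂ := fun τ s => φ τ (Pi.single i s) with hFdef
  have hF : ∀ τ s, HasSum (fun p => c τ p * cexp (2 * Real.pi * I * (xi p * s))) (F τ s) := by
    intro τ s
    refine (hf τ (Pi.single i s)).congr_fun ?_ |> id
    intro p
    simp only [hc, hxi]
    rw [dotProduct_single, mul_assoc, ← Complex.exp_add, cx]
    congr 2
    ring
  have hS := fun τ => sym_diff (c τ) xi (F τ) (hF τ)
  set A : ℍ → ℂ := fun τ => ∑' p, c τ p * (xi p : ℂ) ^ 2 with hAdef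
  set χ : ℍ → ℂ := fun τ => F τ 0 with hχdef
  have hχs : ∀ τ, HasSum (fun p => c τ p * 1) (χ τ) := by
    intro τ
    refine (hF τ 0).congr_fun ?_ |> id
    intro p
    simp
  have hAs : ∀ τ, HasSum (fun p => c τ p * (xi p : ℂ) ^ 2) (A τ) := fun τ => (hS τ).1.hasSum
  have hmod : ∀ (γ : SL(2, ℤ)) (τ : ℍ) (s : ℂ), F (γ • τ) (((γ 1 0 : ℂ) * τ + γ 1 1)⁻¹ * s) =
      cexp (Real.pi * I * γ 1 0 / ((γ 1 0 : ℂ) * τ + γ 1 1) * s ^ 2) * F τ s := by
    intro γ τ s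
    have h1 := h.modular γ τ (Pi.single i s)
    rw [zpow_zero, one_mul, dotProduct_single, Pi.single_eq_same, ← Pi.single_smul] at h1
    simp only [hFdef]
    rw [smul_eq_mul] at h1
    rw [h1]
    congr 2
    ring
  have hd : ∀ (γ : SL(2, ℤ)) (τ : ℍ), ((γ 1 0 : ℂ) * τ + γ 1 1) ≠ 0 := by
    intro γ τ
    rw [← smul_coe]; exact denom_ne_zero _ _
  have hpi : (2 * Real.pi * I : ℂ) ≠ 0 := Complex.two_pi_I_ne_zero
  have hχm : ∀ (γ : SL(2, ℤ)) (τ : ℍ), χ (γ • τ) = χ τ := by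
    intro γ τ
    have h1 := hmod γ τ 0
    simpa using h1
  have hAm : ∀ (γ : SL(2, ℤ)) (τ : ℍ), A (γ • τ) = ((γ 1 0 : ℂ) * τ + γ 1 1) ^ 2 *
      (A τ + ((γ 1 0 : ℂ) / ((γ 1 0 : ℂ) * τ + γ 1 1)) * χ τ / (2 * Real.pi * I)) := by
    intro γ τ
    set j : ℂ := (γ 1 0 : ℂ) * τ + γ 1 1 with hj
    have hj0 : j ≠ 0 := hd γ τ
    set a : ℂ := Real.pi * I * γ 1 0 / j with ha
    have t1 := (hS (γ • τ)).2
    have t2 : Tendsto (fun s : ℂ => j⁻¹ * s) (𝓝[≠] 0) (𝓝[≠] 0) := by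
      rw [tendsto_nhdsWithin_iff]
      constructor
      · have h1 : Continuous (fun s : ℂ => j⁻¹ * s) := by fun_prop
        have h2 := h1.tendsto 0
        rw [mul_zero] at h2
        exact h2.mono_left nhdsWithin_le_nhds
      · filter_upwards [self_mem_nhdsWithin] with s hs
        have hs0 : s ≠ 0 := hs
        exact mul_ne_zero (inv_ne_zero hj0) hs0
    have t3 := t1.comp t2
    have t4 := (hS τ).2
    have t5 : Tendsto (fun s : ℂ => cexp (a * s ^ 2)) (𝓝[≠] 0) (𝓝 1) := by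
      have h1 : Continuous (fun s : ℂ => cexp (a * s ^ 2)) := by fun_prop
      have h2 := h1.tendsto 0
      simp only [ne_eq, OfNat.ofNat_ne_zero, not_false_eq_true, zero_pow, mul_zero, Complex.exp_zero] at h2
      exact h2.mono_left nhdsWithin_le_nhds
    have t6 := ((t5.mul t4).add ((tendsto_exp_sq a).const_mul (2 * F τ 0))).const_mul (j ^ 2)
    have t7 := tendsto_nhds_unique (t3.congr' ?_) t6
    · have h8 : (2 * Real.pi * I) ^ 2 * A (γ • τ) = j ^ 2 * (1 * ((2 * Real.pi * I) ^ 2 * A τ) + 2 * χ τ * a) := t7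
      have h9 : (2 * Real.pi * I) ^ 2 * A (γ • τ) = (2 * Real.pi * I) ^ 2 * (j ^ 2 *
        (A τ + ((γ 1 0 : ℂ) / j) * χ τ / (2 * Real.pi * I))) := by
        rw [h8, ha]
        field_simp
      exact mul_left_cancel₀ (pow_ne_zero 2 hpi) h9
    · filter_upwards [self_mem_nhdsWithin] with s hs
      have hs0 : s ≠ 0 := hs
      have h1 := hmod γ τ s
      have h2 := hmod γ τ (-s)
      have h3 := hmod γ τ 0
      rw [← hj] at h1 h2 h3
      have h4 : Real.pi * I * γ 1 0 / j * (-s) ^ 2 = Real.pi * I * γ 1 0 / j * s ^ 2 := by ring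
      rw [h4] at h2
      rw [mul_neg] at h2
      simp only [mul_zero, ne_eq, OfNat.ofNat_ne_zero, not_false_eq_true, zero_pow, Complex.exp_zero, one_mul] at h3
      simp only [Function.comp_apply]
      rw [h1, h2, h3, ← ha]
      field_simp
      ring
  -- the q-expansions
  set an : ℕ → ℂ := fun m => ∑' ℓ : dual L, f m ℓ * (((ℓ : Fin n → ℝ) i : ℂ) ^ 2) with han
  set χn : ℕ → ℂ := fun m => ∑' ℓ : dual L, f m ℓ * 1 with hχn
  have hAq : ∀ τ : ℍ, HasSum (fun m : ℕ => an m * cexp (2 * Real.pi * I * (m * (τ : ℂ)))) (A τ) := fun τ =>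
    (fiber_hasSum f (fun ℓ => (((ℓ : Fin n → ℝ) i : ℂ) ^ 2)) τ (A τ) (hAs τ)).2
  have hχq : ∀ τ : ℍ, HasSum (fun m : ℕ => χn m * cexp (2 * Real.pi * I * (m * (τ : ℂ)))) (χ τ) := fun τ =>
    (fiber_hasSum f (fun _ => 1) τ (χ τ) (hχs τ)).2
  have hAsm : Summable (fun ℓ : dual L => f N ℓ * (((ℓ : Fin n → ℝ) i : ℂ) ^ 2)) :=
    (fiber_hasSum f (fun ℓ => (((ℓ : Fin n → ℝ) i : ℂ) ^ 2)) ⟨I, by simp⟩ _ (hAs _)).1 N
  have hχsm : Summable (fun ℓ : dual L => f N ℓ * 1) :=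
    (fiber_hasSum f (fun _ => 1) ⟨I, by simp⟩ _ (hχs _)).1 N
  have hA0 : ∀ m < N, an m = 0 := by
    intro m hm
    simp only [han, hN m hm, zero_mul, tsum_zero]
  have hχ0 : ∀ m < N, χn m = 0 := by
    intro m hm
    simp only [hχn, hN m hm, zero_mul, tsum_zero]
  have hAD := mdiff_of_hasSum hAq
  have hχD := mdiff_of_hasSum hχq
  have lim0A : Tendsto A atImInfty (𝓝 (an 0)) := by
    have := tendsto_shift (N := 0) hAq (by intro m hm; omega)
    simpa using this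
  have lim0χ : Tendsto χ atImInfty (𝓝 (χn 0)) := by
    have := tendsto_shift (N := 0) hχq (by intro m hm; omega)
    simpa using this
  have hE := Pool.Agent.Y949.J.tendsto_E2
  set G : ℍ → ℂ := A - (1 / 12 : ℂ) • (E2 * χ) with hG
  have hG0 : G = 0 := by
    refine eq_zero_of_wt_two (c := an 0 - (1 / 12 : ℂ) • (1 * χn 0)) ?_ ?_ ?_
    · exact hAD.sub ((E2_mdifferentiable.mul hχD).const_smul _)
    · intro γ
      funext τ
      rw [ModularForm.SL_slash_apply, smul_coe]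
      have h1 : (((γ 1 0 : ℂ) * τ + γ 1 1) ^ (-2 : ℤ)) = (((γ 1 0 : ℂ) * τ + γ 1 1) ^ 2)⁻¹ := by
        rw [zpow_neg]; norm_cast
      rw [h1]
      simp only [hG, Pi.sub_apply, Pi.smul_apply, Pi.mul_apply, smul_eq_mul]
      rw [hAm, hχm, E2_transf]
      have h2 := hd γ τ
      field_simp
      ring
    · exact lim0A.sub ((hE.mul lim0χ).const_smul _)
  have l1 := tendsto_shift hAq hA0
  have l2 := (hE.mul (tendsto_shift hχq hχ0)).const_mul (1 / 12 : ℂ)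
  have l3 : an N = 1 / 12 * (1 * χn N) := by
    refine tendsto_nhds_unique l1 (l2.congr ?_)
    intro τ
    have h1 := congrFun hG0 τ
    simp only [hG, Pi.sub_apply, Pi.smul_apply, Pi.mul_apply, smul_eq_mul, Pi.zero_apply] at h1
    linear_combination (-cexp (-(2 * Real.pi * I * (N * (τ : ℂ))))) * h1
  have h1 := hAsm.hasSum.sub (hχsm.hasSum.mul_left (1 / 12 : ℂ))
  have h2 : an N - 1 / 12 * χn N = 0 := by rw [l3]; ring
  have h3 : (∑' ℓ : dual L, f N ℓ * (((ℓ : Fin n → ℝ) i : ℂ) ^ 2)) - 1 / 12 * ∑' ℓ : dual L, f N ℓ * 1 = 0 := h2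
  rw [h3] at h1
  refine h1.congr_fun ?_ |> id
  intro ℓ
  ring

/-! ### the lattice -/

/-- the vector with coordinates `(√2 a / 2, b_1 / 2, …, b_14 / 2)` -/
noncomputable def vec (a : ℤ) (b : Fin 14 → ℤ) : Fin 15 → ℝ :=
  Fin.cons (√2 * a / 2) (fun i => (b i : ℝ) / 2)

/-- the congruences defining the lattice -/
def Good (a : ℤ) (b : Fin 14 → ℤ) : Prop := (∀ i, 2 ∣ b i - a) ∧ 4 ∣ ∑ i, b i

theorem vec_zero (a : ℤ) (b : Fin 14 → ℤ) : vec a b 0 = √2 * a / 2 := rfl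

theorem vec_succ (a : ℤ) (b : Fin 14 → ℤ) (i : Fin 14) : vec a b i.succ = (b i : ℝ) / 2 := rfl

theorem vec_add (a a' : ℤ) (b b' : Fin 14 → ℤ) : vec a b + vec a' b' = vec (a + a') (b + b') := by
  funext i
  refine Fin.cases ?_ (fun i => ?_) i
  · simp only [Pi.add_apply, vec_zero]; push_cast; ring
  · simp only [Pi.add_apply, vec_succ]; push_cast; ring

theorem vec_smul (c a : ℤ) (b : Fin 14 → ℤ) : c • vec a b = vec (c * a) (c • b) := by
  funext i
  refine Fin.cases ?_ (fun i => ?_) i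
  · simp only [Pi.smul_apply, vec_zero, zsmul_eq_mul]; push_cast; ring
  · have h1 : (c • b) i = c * b i := rfl
    rw [Pi.smul_apply, vec_succ, vec_succ, zsmul_eq_mul, h1]; push_cast; ring

theorem vec_zero_zero : vec 0 0 = 0 := by
  funext i
  refine Fin.cases ?_ (fun i => ?_) i
  · simp [vec_zero]
  · simp [vec_succ]

theorem sqrt2_ne : (√2 : ℝ) ≠ 0 := by positivity

theorem vec_inj {a a' : ℤ} {b b' : Fin 14 → ℤ} (h : vec a b = vec a' b') : a = a' ∧ b = b' := by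
  constructor
  · have h1 := congrFun h 0
    rw [vec_zero, vec_zero] at h1
    have h2 : (a : ℝ) = a' := by
      have := sqrt2_ne
      field_simp at h1
      exact h1
    exact_mod_cast h2
  · funext i
    have h1 := congrFun h i.succ
    rw [vec_succ, vec_succ] at h1
    have h2 : (b i : ℝ) = b' i := by linarith
    exact_mod_cast h2

theorem vec_dot (a a' : ℤ) (b b' : Fin 14 → ℤ) :
    vec a b ⬝ᵥ vec a' b' = ((2 * a * a' + ∑ i, b i * b' i : ℤ) : ℝ) / 4 := by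
  rw [dotProduct, Fin.sum_univ_succ, vec_zero, vec_zero]
  simp only [vec_succ]
  have h1 : √2 * a / 2 * (√2 * a' / 2) = 2 * (a : ℝ) * a' / 4 := by
    have := Real.mul_self_sqrt (show (0 : ℝ) ≤ 2 by norm_num)
    linear_combination ((a : ℝ) * a' / 4) * this
  rw [h1]
  push_cast
  rw [add_div, Finset.sum_div]
  congr 1
  apply Finset.sum_congr rfl
  intro i _
  ring

/-- The lattice of all `(√2 a / 2, b_1 / 2, …, b_14 / 2)` with integers `a ≡ b_1 ≡ … ≡ b_14 mod 2`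
and `4 ∣ b_1 + … + b_14`. -/
noncomputable def L0 : Submodule ℤ (Fin 15 → ℝ) where
  carrier := {x | ∃ a b, Good a b ∧ x = vec a b}
  add_mem' := by
    rintro _ _ ⟨a, b, h, rfl⟩ ⟨a', b', h', rfl⟩
    refine ⟨a + a', b + b', ⟨fun i => ?_, ?_⟩, vec_add _ _ _ _⟩
    · have h1 := dvd_add (h.1 i) (h'.1 i)
      have h2 : (b + b') i - (a + a') = (b i - a) + (b' i - a') := by simp; ring
      rwa [h2]
    · have h1 := dvd_add h.2 h'.2
      simpa [Finset.sum_add_distrib] using h1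
  zero_mem' := ⟨0, 0, ⟨by simp, by simp⟩, vec_zero_zero.symm⟩
  smul_mem' := by
    rintro c _ ⟨a, b, h, rfl⟩
    refine ⟨c * a, c • b, ⟨fun i => ?_, ?_⟩, vec_smul _ _ _⟩
    · have h1 := (h.1 i).mul_left c
      have h2 : (c • b) i - c * a = c * (b i - a) := by simp; ring
      rwa [h2]
    · have h1 := h.2.mul_left c
      simpa [Finset.mul_sum] using h1

theorem mem_L0 {x : Fin 15 → ℝ} : x ∈ L0 ↔ ∃ a b, Good a b ∧ x = vec a b := Iff.rfl

theorem vec_mem_L0 {a : ℤ} {b : Fin 14 → ℤ} : vec a b ∈ L0 ↔ Good a b := by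
  constructor
  · rintro ⟨a', b', h, h'⟩
    obtain ⟨rfl, rfl⟩ := vec_inj h'
    exact h
  · intro h
    exact ⟨a, b, h, rfl⟩

theorem good_norm {a : ℤ} {b : Fin 14 → ℤ} (h : Good a b) : 8 ∣ 2 * a * a + ∑ i, b i * b i := by
  choose e he using h.1
  have hb : ∀ i, b i = a + 2 * e i := fun i => by linarith [he i]
  have h2 : ∑ i, b i = 14 * a + 2 * ∑ i, e i := by
    simp only [hb, Finset.sum_add_distrib, Finset.sum_const, Finset.card_univ, Fintype.card_fin, Finset.mul_sum, nsmul_eq_mul]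
    norm_num
  have h3 : ∑ i, b i * b i = 14 * a ^ 2 + 4 * a * (∑ i, e i) + 4 * ∑ i, e i ^ 2 := by
    have : ∀ i, b i * b i = a ^ 2 + 4 * a * e i + 4 * e i ^ 2 := fun i => by rw [hb]; ring
    simp only [this, Finset.sum_add_distrib, Finset.sum_const, Finset.card_univ, Fintype.card_fin, Finset.mul_sum, nsmul_eq_mul]
    norm_num
  have h4 : (2 : ℤ) ∣ ∑ i, e i ^ 2 - ∑ i, e i := by
    rw [← Finset.sum_sub_distrib]
    apply Finset.dvd_sum
    intro i _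
    have := Int.even_mul_pred_self (e i)
    obtain ⟨k, hk⟩ := this
    exact ⟨k, by linear_combination hk⟩
  obtain ⟨m, hm⟩ := h.2
  rw [h2] at hm
  obtain ⟨k, hk⟩ := h4
  rw [h3]
  have h5 : ∑ i, e i = 2 * m - 7 * a := by linarith
  have h6 : ∑ i, e i ^ 2 = 2 * k + (2 * m - 7 * a) := by rw [← h5]; linarith
  rw [h6, h5]
  obtain ⟨r, hr⟩ := Int.even_mul_succ_self a
  -- 2 a² + 14 a² + 4 a (2m - 7a) + 4 (2 k + 2 m - 7 a) = -12 a² - 28 a + 8 a m + 8 k + 8 m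
  refine ⟨-3 * r - 2 * a + a * m + k + m, ?_⟩
  linear_combination (-12) * hr

theorem L0_even : IsEven L0 := by
  rintro _ ⟨a, b, h, rfl⟩
  obtain ⟨m, hm⟩ := good_norm h
  refine ⟨m, ?_⟩
  rw [vec_dot, hm]
  push_cast
  ring

theorem L0_int {x y : Fin 15 → ℝ} (hx : x ∈ L0) (hy : y ∈ L0) : ∃ m : ℤ, x ⬝ᵥ y = (m : ℝ) := by
  obtain ⟨m1, h1⟩ := L0_even x hx
  obtain ⟨m2, h2⟩ := L0_even y hy
  obtain ⟨m3, h3⟩ := L0_even (x + y) (L0.add_mem hx hy)
  refine ⟨m3 - m1 - m2, ?_⟩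
  rw [add_dotProduct, dotProduct_add, dotProduct_add, dotProduct_comm y x] at h3
  push_cast
  linarith

theorem L0_sub_dual {x : Fin 15 → ℝ} (hx : x ∈ L0) : x ∈ dual L0 := fun _ hy => L0_int hy hx

theorem dual_add {L : Submodule ℤ (Fin n → ℝ)} {x y : Fin n → ℝ} (hx : x ∈ dual L) (hy : y ∈ dual L) : x + y ∈ dual L := by
  intro z hz
  obtain ⟨m, hm⟩ := hx z hz
  obtain ⟨m', hm'⟩ := hy z hz
  exact ⟨m + m', by rw [dotProduct_add, hm, hm']; push_cast; ring⟩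

theorem L0_discrete : DiscreteTopology L0 := by
  apply discreteTopology_of_isOpen_singleton_zero
  have h1 : ({0} : Set L0) = Subtype.val ⁻¹' (Metric.ball (0 : Fin 15 → ℝ) (1 / 2)) := by
    ext ⟨x, hx⟩
    simp only [Set.mem_singleton_iff, Set.mem_preimage, Metric.mem_ball, dist_zero_right]
    constructor
    · intro h
      have : x = 0 := congrArg Subtype.val h
      rw [this, norm_zero]; norm_num
    · intro h
      obtain ⟨a, b, hab, rfl⟩ := hx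
      have ha : a = 0 := by
        have h2 := (norm_le_pi_norm (vec a b) 0).trans_lt h
        rw [vec_zero, Real.norm_eq_abs, abs_div, abs_mul, abs_of_pos (by norm_num : (0:ℝ) < 2), abs_of_pos (by positivity : (0:ℝ) < √2)] at h2
        have h3 : (1 : ℝ) < √2 := by
          rw [Real.lt_sqrt (by norm_num)]; norm_num
        by_contra hne
        have h4 : (1 : ℝ) ≤ |(a : ℝ)| := by
          have := Int.one_le_abs hne
          exact_mod_cast this
        nlinarith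
      have hb : b = 0 := by
        funext i
        have h2 := (norm_le_pi_norm (vec a b) i.succ).trans_lt h
        rw [vec_succ, Real.norm_eq_abs, abs_div, abs_of_pos (by norm_num : (0:ℝ) < 2)] at h2
        by_contra hne
        have h4 : (1 : ℝ) ≤ |(b i : ℝ)| := by
          have := Int.one_le_abs hne
          exact_mod_cast this
        linarith
      subst ha hb
      exact Subtype.ext vec_zero_zero
  rw [h1]
  exact Metric.isOpen_ball.preimage continuous_subtype_val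

theorem good_2a : Good 2 0 := ⟨fun i => by simp, by simp⟩

theorem good_4 (i : Fin 14) : Good 0 (Pi.single i 4) := by
  refine ⟨fun j => ?_, ?_⟩
  · by_cases h : j = i
    · subst h; simp
    · simp [h]
  · simp

theorem L0_span : Submodule.span ℝ (L0 : Set (Fin 15 → ℝ)) = ⊤ := by
  rw [eq_top_iff]
  intro x _
  have h1 : x = (x 0 / √2) • vec 2 0 + ∑ i : Fin 14, (x i.succ / 2) • vec 0 (Pi.single i 4) := by
    funext j
    refine Fin.cases ?_ (fun j => ?_) j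
    · simp only [Pi.add_apply, Pi.smul_apply, Finset.sum_apply, vec_zero, smul_eq_mul]
      have := sqrt2_ne
      simp
    · simp only [Pi.add_apply, Pi.smul_apply, Finset.sum_apply, vec_succ, smul_eq_mul]
      rw [Finset.sum_eq_single j]
      · simp; ring
      · intro b _ hb
        simp [hb.symm]
      · simp
  rw [h1]
  refine Submodule.add_mem _ (Submodule.smul_mem _ _ (Submodule.subset_span (vec_mem_L0.mpr good_2a))) ?_
  refine Submodule.sum_mem _ (fun i _ => Submodule.smul_mem _ _ (Submodule.subset_span (vec_mem_L0.mpr (good_4 i))))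

theorem vec_dot_gen (a : ℤ) (b : Fin 14 → ℤ) (y : Fin 15 → ℝ) :
    vec a b ⬝ᵥ y = √2 * a / 2 * y 0 + ∑ k, (b k : ℝ) / 2 * y k.succ := by
  rw [dotProduct, Fin.sum_univ_succ, vec_zero]
  simp only [vec_succ]

/-- the glue vector -/
def gl : Fin 14 → ℤ := fun i => if i = 0 then -1 else 1

theorem gl_good : Good 1 gl := by
  refine ⟨fun i => ?_, ?_⟩
  · unfold gl
    split_ifs <;> decide
  · decide

theorem sum_gl (d : Fin 14 → ℤ) : ∑ i, gl i * d i = ∑ i, d i - 2 * d 0 := by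
  rw [Fin.sum_univ_succ, Fin.sum_univ_succ (f := d)]
  have h1 : ∀ i : Fin 13, gl i.succ = 1 := by
    intro i
    unfold gl
    rw [if_neg (Fin.succ_ne_zero i)]
  have h0 : gl 0 = -1 := rfl
  simp only [h1, h0, one_mul]
  ring

/-- two vectors of the root system `D₁₄` -/
def rt (i : Fin 14) (ε : ℤ) : Fin 14 → ℤ := Pi.single 0 2 + Pi.single i (2 * ε)

theorem rt_good (i : Fin 14) {ε : ℤ} (hε : ε = 1 ∨ ε = -1) : Good 0 (rt i ε) := by
  refine ⟨fun j => ?_, ?_⟩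
  · unfold rt
    simp only [Pi.add_apply, Pi.single_apply, sub_zero]
    apply dvd_add
    · split_ifs <;> simp
    · split_ifs <;> simp
  · unfold rt
    simp only [Pi.add_apply, Finset.sum_add_distrib, Finset.sum_pi_single', Finset.mem_univ, if_true]
    rcases hε with rfl | rfl <;> decide

theorem rt_dot (i : Fin 14) (ε : ℤ) (y : Fin 15 → ℝ) : vec 0 (rt i ε) ⬝ᵥ y = y 1 + ε * y i.succ := by
  rw [vec_dot_gen]
  have h1 : ∀ k : Fin 14, ((rt i ε k : ℤ) : ℝ) / 2 * y k.succ =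
      (if k = 0 then y k.succ else 0) + (if k = i then (ε : ℝ) * y k.succ else 0) := by
    intro k
    unfold rt
    simp only [Pi.add_apply, Pi.single_apply]
    by_cases hk : k = 0
    · by_cases hi : k = i
      · simp only [if_pos hk, if_pos hi]; push_cast; ring
      · simp only [if_pos hk, if_neg hi]; push_cast; ring
    · by_cases hi : k = i
      · simp only [if_neg hk, if_pos hi]; push_cast; ring
      · simp only [if_neg hk, if_neg hi]; push_cast; ring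
  simp only [h1, Finset.sum_add_distrib, Finset.sum_ite_eq', Finset.mem_univ, if_true]
  simp

theorem dual_vec {y : Fin 15 → ℝ} (hy : y ∈ dual L0) : ∃ (c : ℤ) (d : Fin 14 → ℤ), y = vec c d ∧
    (∀ i, (2 : ℤ) ∣ d i - d 0) ∧ (4 : ℤ) ∣ 2 * c + ∑ i, d i - 2 * d 0 := by
  obtain ⟨c, hc⟩ := hy _ (vec_mem_L0.mpr good_2a)
  rw [vec_dot_gen] at hc
  have hc' : y 0 = √2 * c / 2 := by
    have h2 := Real.mul_self_sqrt (show (0 : ℝ) ≤ 2 by norm_num)
    simp only [Pi.zero_apply, Int.cast_zero, zero_div, zero_mul, Finset.sum_const_zero, add_zero] at hc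
    rw [← hc]
    push_cast
    linear_combination (-(y 0) / 2) * h2
  have hpm : ∀ i : Fin 14, ∃ m m' : ℤ, y 1 + y i.succ = m ∧ y 1 - y i.succ = m' := by
    intro i
    obtain ⟨m, hm⟩ := hy _ (vec_mem_L0.mpr (rt_good i (Or.inl rfl)))
    obtain ⟨m', hm'⟩ := hy _ (vec_mem_L0.mpr (rt_good i (Or.inr rfl)))
    rw [rt_dot] at hm hm'
    push_cast at hm hm'
    exact ⟨m, m', by linarith, by linarith⟩
  choose m m' hm hm' using hpm
  have hy1 : y 1 = (m 0 : ℝ) / 2 := by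
    have h1 := hm 0
    have h2 : y (Fin.succ 0) = y 1 := rfl
    rw [h2] at h1
    linarith
  refine ⟨c, fun i => m 0 - 2 * m' i, ?_, ?_, ?_⟩
  · funext j
    refine Fin.cases ?_ (fun j => ?_) j
    · rw [vec_zero, hc']
    · rw [vec_succ]
      push_cast
      have := hm' j
      linarith
  · intro i
    have h1 := hm' 0
    exact ⟨m' 0 - m' i, by ring⟩
  · have hyv : y = vec c (fun i => m 0 - 2 * m' i) := by
      funext j
      refine Fin.cases ?_ (fun j => ?_) j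
      · rw [vec_zero, hc']
      · rw [vec_succ]
        push_cast
        have := hm' j
        linarith
    obtain ⟨r, hr⟩ := hy _ (vec_mem_L0.mpr gl_good)
    rw [hyv, vec_dot, sum_gl] at hr
    refine ⟨r, ?_⟩
    have h3 : ((2 * 1 * c + (∑ i, (m 0 - 2 * m' i) - 2 * (m 0 - 2 * m' 0)) : ℤ) : ℝ) = ((4 * r : ℤ) : ℝ) := by
      have : ((2 * 1 * c + (∑ i, (m 0 - 2 * m' i) - 2 * (m 0 - 2 * m' 0)) : ℤ) : ℝ) = 4 * (r : ℝ) := by
        rw [← hr]; ring
      rw [this]; push_cast; ring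
    have h4 := Int.cast_injective h3
    linarith

/-- the smallest vector of the nontrivial class of `dual L0 / L0` -/
noncomputable def v0 : Fin 15 → ℝ := vec 1 (Pi.single 0 2)

theorem dual_cases {y : Fin 15 → ℝ} (hy : y ∈ dual L0) : y ∈ L0 ∨ (y + v0 ∈ L0 ∧
    (y ⬝ᵥ y ≤ 3 / 2 → y 0 ^ 2 = 1 / 2 ∧ ∑ i : Fin 14, y i.succ ^ 2 = 1)) := by
  obtain ⟨c, d, rfl, h1, h2⟩ := dual_vec hy
  by_cases hpar : (2 : ℤ) ∣ d 0 - c
  · left
    rw [vec_mem_L0]
    refine ⟨fun i => ?_, ?_⟩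
    · have := dvd_add (h1 i) hpar
      simpa using this
    · obtain ⟨t, ht⟩ := hpar
      obtain ⟨r, hr⟩ := h2
      exact ⟨r + t, by linarith⟩
  · right
    obtain ⟨t, ht⟩ : ∃ t, d 0 - c = 2 * t + 1 := by
      rcases Int.emod_two_eq_zero_or_one (d 0 - c) with h | h
      · exact absurd (Int.dvd_of_emod_eq_zero h) hpar
      · exact ⟨(d 0 - c) / 2, by omega⟩
    obtain ⟨r, hr⟩ := h2
    constructor
    · rw [v0, vec_add, vec_mem_L0]
      refine ⟨fun i => ?_, ?_⟩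
      · obtain ⟨u, hu⟩ := h1 i
        have h3 : (2 : ℤ) ∣ (Pi.single 0 2 : Fin 14 → ℤ) i := by
          rw [Pi.single_apply]
          split_ifs <;> simp
        obtain ⟨w, hw⟩ := h3
        refine ⟨u + t + w, ?_⟩
        rw [Pi.add_apply, hw]
        linarith
      · simp only [Pi.add_apply, Finset.sum_add_distrib, Finset.sum_pi_single', Finset.mem_univ, if_true]
        exact ⟨r + t + 1, by linarith⟩
    · intro hle
      rw [vec_dot] at hle
      have hle' : 2 * c * c + ∑ i, d i * d i ≤ 6 := by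
        have : ((2 * c * c + ∑ i, d i * d i : ℤ) : ℝ) ≤ ((6 : ℤ) : ℝ) := by
          push_cast at hle ⊢
          linarith
        exact_mod_cast this
      -- `d 0` is even
      have hev : (2 : ℤ) ∣ d 0 := by
        by_contra hodd
        have h3 : ∀ i, 1 ≤ d i * d i := by
          intro i
          have h4 : d i ≠ 0 := by
            intro h0
            obtain ⟨u, hu⟩ := h1 i
            exact hodd ⟨-u, by linarith⟩
          have h5 := Int.one_le_abs h4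
          nlinarith [abs_mul_abs_self (d i)]
        have h4 : (14 : ℤ) ≤ ∑ i, d i * d i := by
          calc (14 : ℤ) = ∑ _i : Fin 14, (1 : ℤ) := by simp
            _ ≤ _ := Finset.sum_le_sum (fun i _ => h3 i)
        nlinarith [mul_self_nonneg c]
      obtain ⟨e, he⟩ := hev
      have hc1 : 1 ≤ c * c := by
        have h4 : c ≠ 0 := by
          intro h0
          omega
        have h5 := Int.one_le_abs h4
        nlinarith [abs_mul_abs_self c]
      have hd4 : 4 ≤ ∑ i, d i * d i := by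
        obtain ⟨i, hi⟩ : ∃ i, d i ≠ 0 := by
          by_contra hcon
          push Not at hcon
          have h5 : ∑ i, d i = 0 := Finset.sum_eq_zero (fun i _ => hcon i)
          rw [h5] at hr
          omega
        obtain ⟨u, hu⟩ := h1 i
        have h6 : d i = 2 * (u + e) := by linarith
        have h7 : u + e ≠ 0 := by
          intro h0
          rw [h0] at h6
          exact hi (by linarith)
        have h8 := Int.one_le_abs h7
        have h9 : 4 ≤ d i * d i := by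
          rw [h6]
          nlinarith [abs_mul_abs_self (u + e)]
        exact h9.trans (Finset.single_le_sum (f := fun i => d i * d i) (fun j _ => mul_self_nonneg _) (Finset.mem_univ i))
      have hc2 : c * c = 1 := by nlinarith
      have hd2 : ∑ i, d i * d i = 4 := by nlinarith
      constructor
      · rw [vec_zero]
        have h5 := Real.mul_self_sqrt (show (0 : ℝ) ≤ 2 by norm_num)
        have h6 : (c : ℝ) * c = 1 := by exact_mod_cast hc2
        have h7 : (√2 * c / 2) ^ 2 = (√2 * √2) * (c * c) / 4 := by ring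
        rw [h7, h5, h6]; norm_num
      · simp only [vec_succ]
        have h6 : (∑ i, (d i : ℝ) * d i) = 4 := by exact_mod_cast hd2
        have h7 : ∑ i, ((d i : ℝ) / 2) ^ 2 = (∑ i, (d i : ℝ) * d i) / 4 := by
          rw [Finset.sum_div]
          apply Finset.sum_congr rfl
          intro i _
          ring
        rw [h7, h6]; norm_num

theorem v0_mem_dual : v0 ∈ dual L0 := by
  rintro _ ⟨a, b, h, rfl⟩
  rw [v0, vec_dot]
  obtain ⟨k, hk⟩ := h.1 0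
  have h1 : ∑ i, b i * (Pi.single 0 2 : Fin 14 → ℤ) i = 2 * b 0 := by
    rw [Finset.sum_eq_single 0]
    · simp; ring
    · intro i _ hi
      simp [hi]
    · simp
  rw [h1]
  refine ⟨a + k, ?_⟩
  have h2 : b 0 = a + 2 * k := by linarith
  rw [h2]
  push_cast
  ring

theorem v0_not_mem : v0 ∉ L0 := by
  rw [v0, vec_mem_L0]
  rintro ⟨h, _⟩
  have h1 := h 0
  rw [Pi.single_eq_same] at h1
  norm_num at h1

theorem L0_not_unimodular : dual L0 ≠ (L0 : Set (Fin 15 → ℝ)) := by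
  intro h
  have h1 : v0 ∈ (L0 : Set (Fin 15 → ℝ)) := h ▸ v0_mem_dual
  exact v0_not_mem h1

theorem dot_self_nonneg' (x : Fin 15 → ℝ) : 0 ≤ x ⬝ᵥ x :=
  Finset.sum_nonneg (fun i _ => mul_self_nonneg (x i))

theorem eq_zero_of_dot {x : Fin 15 → ℝ} (h : x ⬝ᵥ x = 0) : x = 0 := by
  simpa using dotProduct_self_eq_zero.mp h

/-- a vector of norm 2 lies in one of the two summands -/
theorem root_mem {A B : Submodule ℤ (Fin 15 → ℝ)} (hAB : A ⊔ B = L0)
    (hort : ∀ a ∈ A, ∀ b ∈ B, a ⬝ᵥ b = 0) {r : Fin 15 → ℝ} (hr : r ∈ L0) (h2 : r ⬝ᵥ r = 2) :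
    r ∈ A ∨ r ∈ B := by
  have hA : ∀ a ∈ A, a ∈ L0 := fun a ha => hAB ▸ Submodule.mem_sup_left ha
  have hB : ∀ b ∈ B, b ∈ L0 := fun b hb => hAB ▸ Submodule.mem_sup_right hb
  rw [← hAB] at hr
  obtain ⟨a, ha, b, hb, rfl⟩ := Submodule.mem_sup.mp hr
  obtain ⟨m1, h3⟩ := L0_even a (hA a ha)
  obtain ⟨m2, h4⟩ := L0_even b (hB b hb)
  rw [add_dotProduct, dotProduct_add, dotProduct_add, dotProduct_comm b a, hort a ha b hb, h3, h4] at h2
  have h5 := dot_self_nonneg' a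
  have h6 := dot_self_nonneg' b
  rw [h3] at h5
  rw [h4] at h6
  have h7 : m1 + m2 = 1 := by
    have : ((m1 + m2 : ℤ) : ℝ) = ((1 : ℤ) : ℝ) := by push_cast; linarith
    exact_mod_cast this
  have h8 : 0 ≤ m1 := by
    have : (0 : ℝ) ≤ m1 := by linarith
    exact_mod_cast this
  have h9 : 0 ≤ m2 := by
    have : (0 : ℝ) ≤ m2 := by linarith
    exact_mod_cast this
  rcases (by omega : m1 = 0 ∨ m2 = 0) with h | h
  · right
    rw [h] at h3
    have h10 : a = 0 := eq_zero_of_dot (by rw [h3]; norm_num)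
    rw [h10, zero_add]; exact hb
  · left
    rw [h] at h4
    have h10 : b = 0 := eq_zero_of_dot (by rw [h4]; norm_num)
    rw [h10, add_zero]; exact ha

theorem rt_one (i : Fin 14) (ε : ℤ) (hi : i ≠ 0) : vec 0 (rt i ε) 1 = 1 := by
  change vec 0 (rt i ε) (Fin.succ 0) = 1
  rw [vec_succ]
  simp [rt, hi.symm]

theorem rt_coord (i j : Fin 14) (ε : ℤ) (hj : j ≠ 0) :
    vec 0 (rt i ε) j.succ = if j = i then (ε : ℝ) else 0 := by
  rw [vec_succ]
  by_cases h : j = i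
  · simp [rt, hj, h]
    subst h
    simp [hj]
  · simp [rt, hj, h]

theorem rt_dot_rt (i j : Fin 14) (ε ε' : ℤ) (hi : i ≠ 0) (hj : j ≠ 0) :
    vec 0 (rt i ε) ⬝ᵥ vec 0 (rt j ε') = 1 + if i = j then (ε * ε' : ℝ) else 0 := by
  rw [rt_dot, rt_one j ε' hj, rt_coord j i ε' hi]
  split_ifs <;> ring

theorem irr_aux {A B : Submodule ℤ (Fin 15 → ℝ)} (hAB : A ⊔ B = L0)
    (hort : ∀ a ∈ A, ∀ b ∈ B, a ⬝ᵥ b = 0) (h1 : vec 0 (rt 1 1) ∈ A) : B = ⊥ := by
  have hA : ∀ a ∈ A, a ∈ L0 := fun a ha => hAB ▸ Submodule.mem_sup_left ha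
  have hB : ∀ b ∈ B, b ∈ L0 := fun b hb => hAB ▸ Submodule.mem_sup_right hb
  have hnorm : ∀ (i : Fin 14) (ε : ℤ), i ≠ 0 → (ε = 1 ∨ ε = -1) → vec 0 (rt i ε) ⬝ᵥ vec 0 (rt i ε) = 2 := by
    intro i ε hi hε
    rw [rt_dot_rt i i ε ε hi hi, if_pos rfl]
    rcases hε with rfl | rfl <;> norm_num
  -- transport
  have step : ∀ (i j : Fin 14) (ε ε' : ℤ), i ≠ 0 → j ≠ 0 → i ≠ j → (ε' = 1 ∨ ε' = -1) →
      vec 0 (rt i ε) ∈ A → vec 0 (rt j ε') ∈ A := by
    intro i j ε ε' hi hj hij hε' hmem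
    rcases root_mem hAB hort (vec_mem_L0.mpr (rt_good j hε')) (hnorm j ε' hj hε') with h | h
    · exact h
    · exfalso
      have h3 := hort _ hmem _ h
      rw [rt_dot_rt i j ε ε' hi hj, if_neg hij] at h3
      norm_num at h3
  have h2 : ∀ ε' : ℤ, (ε' = 1 ∨ ε' = -1) → vec 0 (rt 2 ε') ∈ A := fun ε' hε' =>
    step 1 2 1 ε' (by decide) (by decide) (by decide) hε' h1
  have hall : ∀ (j : Fin 14) (ε' : ℤ), j ≠ 0 → (ε' = 1 ∨ ε' = -1) → vec 0 (rt j ε') ∈ A := by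
    intro j ε' hj hε'
    by_cases hj2 : (2 : Fin 14) = j
    · rw [← hj2]; exact h2 ε' hε'
    · exact step 2 j 1 ε' (by decide) hj hj2 hε' (h2 1 (Or.inl rfl))
  -- the coordinates `1, …, 14` of elements of `B` vanish
  have hB0 : ∀ b ∈ B, ∀ j : Fin 14, b j.succ = 0 := by
    intro b hb j
    have h3 : ∀ i : Fin 14, i ≠ 0 → b 1 + b i.succ = 0 ∧ b 1 - b i.succ = 0 := by
      intro i hi
      have h4 := hort _ (hall i 1 hi (Or.inl rfl)) b hb
      have h5 := hort _ (hall i (-1) hi (Or.inr rfl)) b hb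
      rw [rt_dot] at h4 h5
      push_cast at h4 h5
      exact ⟨by linarith, by linarith⟩
    by_cases hj : j = 0
    · subst hj
      change b 1 = 0
      have := h3 1 (by decide)
      linarith [this.1, this.2]
    · have := h3 j hj
      linarith [this.1, this.2]
  have hsq : √2 * √2 = 2 := Real.mul_self_sqrt (by norm_num)
  have hr0 : vec 2 0 ⬝ᵥ vec 2 0 = 2 := by
    rw [vec_dot]; norm_num
  rcases root_mem hAB hort (vec_mem_L0.mpr good_2a) hr0 with h | h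
  · rw [eq_bot_iff]
    intro b hb
    rw [Submodule.mem_bot]
    have h4 := hort _ h b hb
    rw [vec_dot_gen] at h4
    funext j
    refine Fin.cases ?_ (fun j => ?_) j
    · simp only [Pi.zero_apply, Int.cast_zero, zero_div, zero_mul, Finset.sum_const_zero, add_zero] at h4
      have := sqrt2_ne
      have h5 : √2 * b 0 = 0 := by push_cast at h4; linarith
      exact (mul_eq_zero.mp h5).resolve_left this
    · exact hB0 b hb j
  · exfalso
    have hA0 : ∀ a ∈ A, a 0 = 0 := by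
      intro a ha
      have h4 := hort a ha _ h
      rw [dotProduct_comm, vec_dot_gen] at h4
      simp only [Pi.zero_apply, Int.cast_zero, zero_div, zero_mul, Finset.sum_const_zero, add_zero] at h4
      have := sqrt2_ne
      have h5 : √2 * a 0 = 0 := by push_cast at h4; linarith
      exact (mul_eq_zero.mp h5).resolve_left this
    have hg : vec 1 gl ∈ A ⊔ B := by rw [hAB]; exact vec_mem_L0.mpr gl_good
    obtain ⟨a, ha, b, hb, hab⟩ := Submodule.mem_sup.mp hg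
    have hbv : b = vec 1 0 := by
      funext j
      refine Fin.cases ?_ (fun j => ?_) j
      · have h4 := congrFun hab 0
        rw [Pi.add_apply, hA0 a ha, zero_add] at h4
        rw [h4, vec_zero, vec_zero]
      · rw [hB0 b hb j, vec_succ]
        simp
    have hbL := hB b hb
    rw [hbv, vec_mem_L0] at hbL
    have := hbL.1 0
    norm_num at this

theorem L0_irreducible : IsIrreducible L0 := by
  intro A B hAB hort
  have hnorm : vec 0 (rt 1 1) ⬝ᵥ vec 0 (rt 1 1) = 2 := by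
    rw [rt_dot_rt 1 1 1 1 (by decide) (by decide), if_pos rfl]
    norm_num
  rcases root_mem hAB hort (vec_mem_L0.mpr (rt_good 1 (Or.inl rfl))) hnorm with h | h
  · right
    exact irr_aux hAB hort h
  · left
    refine irr_aux (A := B) (B := A) (by rw [sup_comm]; exact hAB) ?_ h
    intro a ha b hb
    rw [dotProduct_comm]
    exact hort b hb a ha

/-! ### no weak Jacobi form of weight zero -/

theorem weight_zero (φ : ℍ → (Fin 15 → ℂ) → ℂ) (h : IsWeakJacobi L0 0 φ) : φ = 0 := by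
  classical
  obtain ⟨f, hf⟩ := h.fourier
  by_contra hne
  have hex : ∃ m, ∃ ℓ, f m ℓ ≠ 0 := by
    by_contra hcon
    push Not at hcon
    apply hne
    funext τ z
    have h1 := hf τ z
    simp only [hcon, zero_mul] at h1
    exact h1.unique hasSum_zero
  set N := Nat.find hex with hNdef
  obtain ⟨ℓN, hℓN⟩ : ∃ ℓ, f N ℓ ≠ 0 := Nat.find_spec hex
  have hN : ∀ m < N, ∀ ℓ, f m ℓ = 0 := by
    intro m hm ℓ
    have := Nat.find_min hex hm
    push Not at this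
    exact this ℓ
  have key1 : ∀ ℓ : dual L0, f N ℓ ≠ 0 → ∀ x ∈ L0,
      (ℓ : Fin 15 → ℝ) ⬝ᵥ ℓ ≤ ((ℓ : Fin 15 → ℝ) + x) ⬝ᵥ ((ℓ : Fin 15 → ℝ) + x) := by
    intro ℓ hℓ x hx
    have hexp : ((ℓ : Fin 15 → ℝ) + x) ⬝ᵥ ((ℓ : Fin 15 → ℝ) + x) =
      (ℓ : Fin 15 → ℝ) ⬝ᵥ ℓ + 2 * ((ℓ : Fin 15 → ℝ) ⬝ᵥ x) + x ⬝ᵥ x := by
      rw [add_dotProduct, dotProduct_add, dotProduct_add, dotProduct_comm x ℓ]; ring
    by_contra hlt
    push Not at hlt
    have h2 : ∃ m : ℕ, (m : ℝ) = N + (ℓ : Fin 15 → ℝ) ⬝ᵥ x + (x ⬝ᵥ x) / 2 := by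
      by_contra hcon
      push Not at hcon
      exact hℓ (shift_zero h f hf x hx N ℓ hcon)
    obtain ⟨m, hm⟩ := h2
    have h3 := shift_eq h f hf x hx N m ℓ ⟨(ℓ : Fin 15 → ℝ) + x, dual_add ℓ.2 (L0_sub_dual hx)⟩ rfl hm
    have h4 : m < N := by
      have : (m : ℝ) < N := by rw [hm]; linarith
      exact_mod_cast this
    rw [hN m h4] at h3
    exact hℓ h3
  have key2 : ∀ ℓ : dual L0, f N ℓ ≠ 0 → (ℓ : Fin 15 → ℝ) ≠ 0 →
      ((ℓ : Fin 15 → ℝ) + v0 ∈ L0 ∧ (ℓ : Fin 15 → ℝ) 0 ^ 2 = 1 / 2 ∧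
        ∑ i : Fin 14, (ℓ : Fin 15 → ℝ) i.succ ^ 2 = 1) := by
    intro ℓ hℓ hℓ0
    rcases dual_cases ℓ.2 with h1 | ⟨h1, h2⟩
    · exfalso
      apply hℓ0
      have h3 := key1 ℓ hℓ (-(ℓ : Fin 15 → ℝ)) (L0.neg_mem h1)
      rw [add_neg_cancel, dotProduct_zero] at h3
      exact eq_zero_of_dot (le_antisymm h3 (dot_self_nonneg' _))
    · refine ⟨h1, h2 ?_⟩
      have h3 := key1 ℓ hℓ (-((ℓ : Fin 15 → ℝ) + v0)) (L0.neg_mem h1)
      have h4 : (ℓ : Fin 15 → ℝ) + -((ℓ : Fin 15 → ℝ) + v0) = -v0 := by abel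
      rw [h4, neg_dotProduct, dotProduct_neg, neg_neg] at h3
      refine h3.trans ?_
      rw [v0, vec_dot, Finset.sum_eq_single 0]
      · rw [Pi.single_eq_same]; norm_num
      · intro i _ hi
        simp [hi]
      · simp
  have hrel := fun i => rel h f hf N hN i
  by_cases hT : ∃ ℓ : dual L0, f N ℓ ≠ 0 ∧ (ℓ : Fin 15 → ℝ) ≠ 0
  · obtain ⟨ℓ1, h1, h10⟩ := hT
    obtain ⟨k1, k2, k3⟩ := key2 ℓ1 h1 h10
    have hconst : ∀ ℓ : dual L0, f N ℓ ≠ 0 → (ℓ : Fin 15 → ℝ) ≠ 0 → f N ℓ = f N ℓ1 := by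
      intro ℓ hℓ hℓ0
      obtain ⟨m1, m2, m3⟩ := key2 ℓ hℓ hℓ0
      have hx : (ℓ1 : Fin 15 → ℝ) - ℓ ∈ L0 := by
        have := L0.sub_mem k1 m1
        have h5 : (ℓ1 : Fin 15 → ℝ) + v0 - (ℓ + v0) = ℓ1 - ℓ := by abel
        rwa [h5] at this
      refine shift_eq h f hf _ hx N N ℓ ℓ1 (by abel) ?_
      have hn : ∀ y : Fin 15 → ℝ, y ⬝ᵥ y = y 0 ^ 2 + ∑ i : Fin 14, y i.succ ^ 2 := by
        intro y
        rw [dotProduct, Fin.sum_univ_succ]
        congr 1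
        · ring
        · apply Finset.sum_congr rfl; intro i _; ring
      have e1 := hn ℓ
      have e2 := hn ℓ1
      rw [m2, m3] at e1
      rw [k2, k3] at e2
      have h6 : ((ℓ1 : Fin 15 → ℝ) - (ℓ : Fin 15 → ℝ)) ⬝ᵥ ((ℓ1 : Fin 15 → ℝ) - (ℓ : Fin 15 → ℝ)) =
        (ℓ1 : Fin 15 → ℝ) ⬝ᵥ ℓ1 - 2 * ((ℓ : Fin 15 → ℝ) ⬝ᵥ ℓ1) + (ℓ : Fin 15 → ℝ) ⬝ᵥ ℓ := by
        rw [sub_dotProduct, dotProduct_sub, dotProduct_sub, dotProduct_comm (ℓ1 : Fin 15 → ℝ) (ℓ : Fin 15 → ℝ)]; ring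
      rw [h6, e1, e2, dotProduct_sub, e1]
      ring
    -- the trace zero combination
    have hs1 := (hrel 0).mul_left (14 : ℂ)
    have hs2 : HasSum (fun ℓ : dual L0 => ∑ i : Fin 14, f N ℓ * (((ℓ : Fin 15 → ℝ) i.succ : ℂ) ^ 2 - 1 / 12)) (∑ _i : Fin 14, (0 : ℂ)) :=
      hasSum_sum (fun i _ => hrel i.succ)
    have hs3 := (hs1.sub hs2).mul_left (f N ℓ1)⁻¹
    rw [Finset.sum_const_zero, mul_zero, sub_zero, mul_zero] at hs3
    have hs4 : HasSum (fun ℓ : dual L0 => (((if f N ℓ ≠ 0 ∧ (ℓ : Fin 15 → ℝ) ≠ 0 then 6 else 0) : ℝ) : ℂ)) ((0 : ℝ) : ℂ) := by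
      rw [ofReal_zero]
      refine hs3.congr_fun ?_ |> id
      intro ℓ
      have hsum : ∑ i : Fin 14, f N ℓ * (((ℓ : Fin 15 → ℝ) i.succ : ℂ) ^ 2 - 1 / 12) =
        f N ℓ * (((∑ i : Fin 14, (ℓ : Fin 15 → ℝ) i.succ ^ 2 : ℝ) : ℂ) - 14 / 12) := by
        rw [← Finset.mul_sum, Finset.sum_sub_distrib]
        congr 2
        · push_cast; rfl
        · simp; norm_num
      rw [hsum]
      by_cases hc : f N ℓ ≠ 0 ∧ (ℓ : Fin 15 → ℝ) ≠ 0
      · rw [if_pos hc]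
        obtain ⟨m1, m2, m3⟩ := key2 ℓ hc.1 hc.2
        rw [m3, hconst ℓ hc.1 hc.2]
        have m4 : (((ℓ : Fin 15 → ℝ) 0 : ℂ)) ^ 2 = 1 / 2 := by
          rw [← ofReal_pow, m2]; push_cast; rfl
        rw [m4]
        push_cast
        field_simp
        norm_num
      · rw [if_neg hc]
        rw [not_and_or, not_not, not_not] at hc
        rcases hc with hc | hc
        · rw [hc]; simp
        · rw [hc]; simp
          ring_nf
          simp
    have hs5 : HasSum (fun ℓ : dual L0 => ((if f N ℓ ≠ 0 ∧ (ℓ : Fin 15 → ℝ) ≠ 0 then 6 else 0) : ℝ)) 0 := by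
      exact_mod_cast hs4
    have hs6 := (hasSum_zero_iff_of_nonneg (fun ℓ => by show (0 : ℝ) ≤ ite _ _ _; split_ifs <;> norm_num)).mp hs5
    have hs7 := congrFun hs6 ℓ1
    simp only [Pi.zero_apply] at hs7
    rw [if_pos ⟨h1, h10⟩] at hs7
    norm_num at hs7
  · push Not at hT
    have h0 : (0 : Fin 15 → ℝ) ∈ dual L0 := L0_sub_dual L0.zero_mem
    have hℓN0 : ℓN = ⟨0, h0⟩ := Subtype.ext (hT ℓN hℓN)
    have h1 := hrel 0
    have h2 := hasSum_single (f := fun ℓ : dual L0 => f N ℓ * (((ℓ : Fin 15 → ℝ) 0 : ℂ) ^ 2 - 1 / 12)) ⟨0, h0⟩ (by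
      intro ℓ hℓ
      have : f N ℓ = 0 := by
        by_contra hcon
        exact hℓ (Subtype.ext (hT ℓ hcon))
      rw [this, zero_mul])
    have h3 := h1.unique h2
    simp only [Pi.zero_apply, ofReal_zero] at h3
    rw [← hℓN0] at h3
    apply hℓN
    have h4 : f N ℓN * (-(1 / 12)) = 0 := by
      rw [h3]; ring
    have h5 : (-(1 / 12) : ℂ) ≠ 0 := by norm_num
    exact (mul_eq_zero.mp h4).resolve_right h5

/-- There is an even positive definite lattice of rank 15, irreducible and not unimodular, that has no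
nonzero weak Jacobi form of weight `0` and index one; no homogeneous basis of its module of weak
Jacobi forms of index one has an element of weight `0`. -/
theorem result : ∃ L : Submodule ℤ (Fin 15 → ℝ), IsLattice L ∧ IsEven L ∧ IsIrreducible L ∧
    dual L ≠ (L : Set (Fin 15 → ℝ)) ∧
    (∀ φ : ℍ → (Fin 15 → ℂ) → ℂ, IsWeakJacobi L 0 φ → φ = 0) ∧
    ∀ (ι : Type) (w : ι → ℤ) (b : ι → ℍ → (Fin 15 → ℂ) → ℂ), IsHomogeneousBasis L w b → ∀ i, w i ≠ 0 := by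
  classical
  refine ⟨L0, ⟨L0_discrete, L0_span⟩, L0_even, L0_irreducible, L0_not_unimodular, weight_zero, ?_⟩
  intro ι w b hb i hi
  have h1 : IsWeakJacobi L0 0 (b i) := hi ▸ hb.mem i
  have h2 : b i = 0 := weight_zero _ h1
  have hmod1 : ∀ m : ℤ, m = 0 → IsModular m (1 : ℍ → ℂ) := by
    rintro _ rfl
    exact ⟨1, rfl⟩
  have hmod0 : ∀ m : ℤ, IsModular m (0 : ℍ → ℂ) := fun m => ⟨0, rfl⟩
  obtain ⟨c, _, huniq⟩ := hb.rep 0 (b i) h1
  have u0 := huniq (fun _ => 0) ⟨fun j => hmod0 _, by simp, by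
    intro τ z
    rw [h2]
    simp⟩
  have u1 := huniq (Pi.single i 1) ⟨by
    intro j
    by_cases hj : j = i
    · subst hj
      rw [Pi.single_eq_same]
      exact hmod1 _ (by rw [hi]; rfl)
    · rw [Pi.single_eq_of_ne hj]
      exact hmod0 _, by
    refine (Set.finite_singleton i).subset ?_
    intro j hj
    by_contra hne
    apply hj
    exact Pi.single_eq_of_ne hne _, by
    intro τ z
    rw [h2]
    symm
    apply finsum_eq_zero_of_forall_eq_zero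
    intro j
    by_cases hj : j = i
    · subst hj; rw [h2]; simp
    · rw [Pi.single_eq_of_ne hj]; simp⟩
  have h3 : (Pi.single i (1 : ℍ → ℂ) : ι → ℍ → ℂ) = fun _ => 0 := u1.trans u0.symm
  have h4 := congrFun (congrFun h3 i) UpperHalfPlane.I
  rw [Pi.single_eq_same] at h4
  simp at h4

end Pool.Agent.Results.MP_c5c797_nt.NoWeightZero
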